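import Pool.Agent.Lib.MP_42a48c_pr.Limit

/-!
# Almost sure Schramm bound for rotor walks on transient graphs

For every connected locally finite infinite graph on which simple random walk is transient, every
choice of cyclic orders, and every start vertex `a`: if the initial rotor configuration `ρ` is
sampled from the oriented wired uniform spanning forest measure, then almost surely
`limsup_n S_n(ρ, x) / n ≤ 𝒢(x)` for every vertex `x`.
-/

open MeasureTheory Filter
open scoped ENNReal

open Pool.Agent.Lib.MP_42a48c_pr

theorem Pool.Agent.Results.MP_42a48c_pr.SchrammBound.result.{u}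
    {V : Type u} (G : SimpleGraph V) [G.LocallyFinite] [Infinite V] (hG : G.Connected)
    (a : V) (htransient : green G a a ≠ ⊤) (τ : RotorMechanism G)
    (μ : Measure (Config G)) (hμ : IsOWUSF G a μ) :
    ∀ᵐ ρ ∂μ, ∀ x : V,
      limsup (fun n : ℕ => occ τ a n ρ x / (n : ℝ≥0∞)) atTop ≤ green G a x :=
  main a τ hG htransient hμ
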